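import Mathlib

namespace Pool.Agent.Results.MP_025d69_co.Counter

open Classical in
/-- nonsingular real adjacency matrix -/
def Nonsing {V : Type} [Fintype V] (G : SimpleGraph V) : Prop := (G.adjMatrix ℝ).det ≠ 0

/-- connected, and every vertex set inducing a connected subgraph with no cut-vertex is a clique -/
def Block {V : Type} (G : SimpleGraph V) : Prop :=
  G.Connected ∧ ∀ S : Set V, (G.induce S).Connected →
    (∀ v ∈ S, (G.induce (S \ {v})).Preconnected) → G.IsClique S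

theorem sep {V : Type} (G : SimpleGraph V) (S : Set V) (h : (G.induce S).Preconnected) (x y w : V)
    (hx : x ∈ S) (hy : y ∈ S) (hw : w ∉ S) (T : V → Prop) (h1 : T x) (h2 : ¬ T y)
    (h3 : ∀ a b, T a → G.Adj a b → b = w ∨ T b) : False := by
  have hr := h ⟨x, hx⟩ ⟨y, hy⟩
  rw [SimpleGraph.reachable_iff_reflTransGen] at hr
  have key : ∀ z : S, Relation.ReflTransGen (G.induce S).Adj ⟨x, hx⟩ z → T z.1 := by
    intro z hz
    induction hz with
    | refl => exact h1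
    | @tail a b _ hab ih => exact (h3 a.1 b.1 ih hab).resolve_left fun e => hw (e ▸ b.2)
  exact h2 (key _ hr)

theorem block {n : ℕ} (G : SimpleGraph (Fin n)) (hc : G.Connected) (L : List (Fin n × List (Fin n)))
    (h : ∀ x y, x = y ∨ G.Adj x y ∨ ∃ p ∈ L, p.1 ≠ x ∧ p.1 ≠ y ∧ x ∈ p.2 ∧ y ∉ p.2)
    (h' : ∀ p ∈ L, ∀ a ∈ p.2, ∀ b, G.Adj a b → b = p.1 ∨ b ∈ p.2) : Block G := by
  refine ⟨hc, fun S h1 h2 x hx y hy hxy => ?_⟩
  by_contra hn
  obtain ⟨⟨w, T⟩, hp, w1, w2, t1, t2⟩ := ((h x y).resolve_left hxy).resolve_left hn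
  have t3 := h' _ hp
  by_cases hw : w ∈ S
  · exact sep G _ (h2 w hw) x y w ⟨hx, w1.symm⟩ ⟨hy, w2.symm⟩ (by simp) (· ∈ T) t1 t2
      fun a b ha => t3 a ha b
  · exact sep G _ h1.preconnected x y w hx hy hw (· ∈ T) t1 t2 fun a b ha => t3 a ha b

theorem conn {n : ℕ} (G : SimpleGraph (Fin (n + 1)))
    (h1 : ∀ x, x = 0 ∨ G.Adj 0 x ∨ ∃ y, G.Adj 0 y ∧ G.Adj y x) : G.Connected := by
  have h2 : ∀ x, G.Reachable 0 x := fun x => by
    rcases h1 x with rfl | h | ⟨y, h, h'⟩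
    · rfl
    · exact h.reachable
    · exact h.reachable.trans h'.reachable
  exact ⟨fun a b => (h2 a).symm.trans (h2 b)⟩

def e1 : List (Fin 4 × Fin 4) := [(0,1),(1,2),(1,3),(2,3)]
def e2 : List (Fin 7 × Fin 7) := [(0,1),(0,2),(1,2),(1,3),(1,4),(3,4),(2,5),(2,6),(5,6)]

def G1 : SimpleGraph (Fin 4) where
  Adj a b := (a, b) ∈ e1 ∨ (b, a) ∈ e1
  symm := ⟨fun _ _ h => h.symm⟩
  loopless := ⟨by decide⟩

def G2 : SimpleGraph (Fin 7) where
  Adj a b := (a, b) ∈ e2 ∨ (b, a) ∈ e2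
  symm := ⟨fun _ _ h => h.symm⟩
  loopless := ⟨by decide⟩

instance : DecidableRel G1.Adj := fun _ _ => inferInstanceAs (Decidable (_ ∨ _))
instance : DecidableRel G2.Adj := fun _ _ => inferInstanceAs (Decidable (_ ∨ _))

theorem ns_iff {V : Type} [Fintype V] (G : SimpleGraph V) [DecidableRel G.Adj] :
    Nonsing G ↔ ∀ x : V → ℝ, (∀ i, ∑ j, (if G.Adj i j then x j else 0) = 0) → x = 0 := by
  classical
  unfold Nonsing
  rw [Ne, ← Matrix.exists_mulVec_eq_zero_iff]
  push Not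
  refine forall_congr' fun x => ?_
  rw [← not_imp_not, not_not, not_not, funext_iff]
  simp [Matrix.mulVec, dotProduct, SimpleGraph.adjMatrix_apply]

theorem result : ∃ (n₁ n₂ : ℕ) (G₁ : SimpleGraph (Fin n₁)) (G₂ : SimpleGraph (Fin n₂))
    (v₁ : Fin n₁) (v₂ : Fin n₂), Block G₁ ∧ Block G₂ ∧ Nonsing G₁ ∧ Nonsing G₂ ∧
      ¬ Nonsing ((G₁ ⊕g G₂) ⊔ SimpleGraph.edge (Sum.inl v₁) (Sum.inr v₂)) := by
  refine ⟨4, 7, G1, G2, 0, 0, 
    block _ (conn _ (by decide)) [(1, [0]), (1, [2, 3])] (by decide) (by decide),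
    block _ (conn _ (by decide)) [(1, [3, 4]), (1, [0, 2, 5, 6]), (2, [5, 6]), (2, [0, 1, 3, 4])]
      (by decide) (by decide), ?_, ?_, ?_⟩
  · rw [ns_iff]
    intro x h
    have h0 := h 0; have h1 := h 1; have h2 := h 2; have h3 := h 3
    simp +decide only [Fin.sum_univ_succ, Fin.sum_univ_zero, if_true, if_false] at h0 h1 h2 h3
    funext i
    fin_cases i <;> simp at * <;> linarith
  · rw [ns_iff]
    intro x h
    have h0 := h 0; have h1 := h 1; have h2 := h 2; have h3 := h 3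
    have h4 := h 4; have h5 := h 5; have h6 := h 6
    simp +decide only [Fin.sum_univ_seven, if_true, if_false] at h0 h1 h2 h3 h4 h5 h6
    funext i
    fin_cases i <;> simp <;> linarith
  · classical
    rw [ns_iff]
    intro h
    have := h (Sum.elim ![2, 1, -1, -1] ![-1, -1, -1, 1, 1, 1, 1]) (by
      rintro (i | i) <;> fin_cases i <;>
        simp +decide [Fintype.sum_sum_type, Fin.sum_univ_four, Fin.sum_univ_seven,
          SimpleGraph.edge_adj] <;> norm_num)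
    have h2 := congrFun this (Sum.inl 0)
    simp at h2

end Pool.Agent.Results.MP_025d69_co.Counter
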